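import Pool.Agent.helper22.GS.Spec

set_option autoImplicit false

namespace Pool.Agent.GS

open Module

theorem PS (hDU : DU_stmt) : PS_stmt := by
  intro F V _ _ _ _ B hB y ν hy hns h0
  let f : V →ₗ[F] V :=
    { toFun := fun v => y v
      map_add' := hy.add
      map_smul' := fun c v => by
        rw [hy.smul]
        rfl }
  have hf : ∀ v, f v = y v := fun v => rfl
  have hex : ∃ v, LinearIndependent F ![v, y v] := by
    by_contra hcon
    push Not at hcon
    obtain ⟨c, hc⟩ := LinearMap.exists_eq_smul_id_of_forall_notLinearIndependent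
      (f := f) (fun v => hcon v)
    obtain ⟨v, hv⟩ := hns c
    apply hv
    rw [← hf, hc]
    rfl
  obtain ⟨v, hv⟩ := hex
  obtain ⟨w, hw⟩ := hDU B hB ![v, y v] hv ![1, 0]
  have hw0 : B v w = 1 := by simpa using hw 0
  have hw1 : B (y v) w = 0 := by simpa using hw 1
  have h1 := h0 (v + w)
  rw [hy.add] at h1
  simp only [map_add, LinearMap.add_apply, h0, hw1, zero_add, add_zero] at h1
  refine ⟨v, w, ?_, h0 v, h0 w, hw1, ?_⟩
  · rw [hw0]
    exact one_ne_zero
  · rw [hB.neg, h1, neg_zero]

end Pool.Agent.GS
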